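import Pool.Agent.H280Z.Res.Val

/-! The key lemma: the derivation `u d/du` maps a valuation ring centred at `u = 0` into its
maximal ideal. -/

set_option autoImplicit false

namespace Pool.Agent.H280Z.Res

open Polynomial

section
variable {k F : Type*} [Field k] [Field F] [Algebra k F]

lemma logD_mul (δ : Derivation k F F) {x y : F} (hx : x ≠ 0) (hy : y ≠ 0) :
    δ (x * y) / (x * y) = δ x / x + δ y / y := by
  rw [Derivation.leibniz, smul_eq_mul, smul_eq_mul]
  field_simp
  ring

lemma logD_pow (δ : Derivation k F F) {x : F} (hx : x ≠ 0) (n : ℕ) :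
    δ (x ^ n) / x ^ n = n * (δ x / x) := by
  induction n with
  | zero => simp
  | succ n ih =>
    rw [pow_succ, logD_mul δ (pow_ne_zero _ hx) hx, ih]
    push_cast
    ring

end

section
variable {k F : Type*} [Field k] [Field F] [Algebra k F] [Algebra k[X] F]
  [IsScalarTower k k[X] F] [FaithfulSMul k[X] F] [Algebra.IsAlgebraic k[X] F]

omit [Algebra k F] [IsScalarTower k k[X] F] in
/-- Finiteness of the integral closure in a simple extension. -/
lemma exists_gens [CharZero k] (h : F) :
    ∃ (L : Subfield F) (S : Finset F), h ∈ L ∧ (∀ p, algebraMap k[X] F p ∈ L) ∧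
      (∀ s ∈ S, s ∈ L ∧ IsIntegral k[X] s) ∧
      ∀ y ∈ L, IsIntegral k[X] y → y ∈ Submodule.span k[X] (S : Set F) := by
  classical
  let K := FractionRing k[X]
  let _ : Algebra K F := FractionRing.liftAlgebra k[X] F
  have : IsScalarTower k[X] K F := FractionRing.isScalarTower_liftAlgebra k[X] F
  have : Algebra.IsAlgebraic K F := (IsFractionRing.comap_isAlgebraic_iff (A := k[X])).1 ‹_›
  let L : IntermediateField K F := IntermediateField.adjoin K {h}
  have : FiniteDimensional K L :=
    IntermediateField.adjoin.finiteDimensional (Algebra.IsIntegral.isIntegral h)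
  have : CharZero K := by
    have : CharZero k[X] := inferInstance
    exact IsFractionRing.charZero_of_isFractionRing k[X]
  have hfin : Module.Finite k[X] (integralClosure k[X] L) :=
    IsIntegralClosure.finite k[X] K L (integralClosure k[X] L)
  obtain ⟨T, hT⟩ := hfin.fg_top
  let φ : integralClosure k[X] L →ₐ[k[X]] F :=
    ((L.val).restrictScalars k[X]).comp (integralClosure k[X] L).val
  refine ⟨L.toSubfield, T.image φ, IntermediateField.subset_adjoin K {h} rfl, ?_, ?_, ?_⟩
  · intro p
    rw [IsScalarTower.algebraMap_apply k[X] K F]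
    exact L.algebraMap_mem _
  · intro s hs
    obtain ⟨z, -, rfl⟩ := Finset.mem_image.1 hs
    exact ⟨z.1.2, (integralClosure.isIntegral z).map φ⟩
  · intro y hy hyi
    have h1 : IsIntegral k[X] (⟨y, hy⟩ : L) :=
      (isIntegral_algHom_iff ((L.val).restrictScalars k[X]) Subtype.val_injective).1 hyi
    have h2 : (⟨⟨y, hy⟩, h1⟩ : integralClosure k[X] L) ∈ Submodule.span k[X] (T : Set _) := by
      rw [hT]; trivial
    have h3 := Submodule.mem_map_of_mem (f := φ.toLinearMap) h2
    rw [Submodule.map_span] at h3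
    rw [Finset.coe_image]
    exact h3

lemma key_aux [CharZero k] [IsAlgClosed k] (W : ValuationSubring F)
    (hk : ∀ c : k, algebraMap k F c ∈ W) (hu : W.valuation (algebraMap k[X] F X) < 1)
    (δ : Derivation k F F) (hδ : δ (algebraMap k[X] F X) = algebraMap k[X] F X)
    {h : F} (hh : h ∈ W) : W.valuation (δ h) < 1 := by
  classical
  obtain ⟨L, S, hhL, hpL, hS, hspan⟩ := exists_gens (k := k) h
  set u : F := algebraMap k[X] F X with hudef
  have hu0 : u ≠ 0 :=
    (map_ne_zero_iff _ (FaithfulSMul.algebraMap_injective k[X] F)).2 X_ne_zero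
  have hpW := poly_mem W hk hu
  have hle : ∀ {x : F}, x ∈ W → W.valuation x ≤ 1 := fun hx => (W.valuation_le_one_iff _).2 hx
  have hmul : ∀ {x y : F} {g : W.ValueGroup}, x ∈ W → W.valuation y ≤ g →
      W.valuation (x * y) ≤ g := by
    intro x y g hx hy
    rw [map_mul]
    calc _ ≤ 1 * g := mul_le_mul' (hle hx) hy
      _ = g := one_mul _
  obtain ⟨h0, hh0, hmax⟩ := (insert u S).exists_max_image (fun s => W.valuation (δ s))
    (Finset.insert_nonempty _ _)
  have hh0' : h0 ∈ L ∧ h0 ∈ W := by
    rcases Finset.mem_insert.1 hh0 with rfl | h1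
    · exact ⟨hpL _, hpW _⟩
    · exact ⟨(hS _ h1).1, mem_of_isIntegral W hpW (hS _ h1).2⟩
  set B := W.valuation (δ h0) with hB
  have hBp : ∀ p : k[X], W.valuation (δ (algebraMap k[X] F p)) ≤ B := by
    intro p
    rw [algebraMap_eq_aeval, Derivation.map_aeval, smul_eq_mul, ← algebraMap_eq_aeval]
    exact hmul (hpW _) (hmax u (Finset.mem_insert_self _ _))
  have hint : ∀ y ∈ L, IsIntegral k[X] y → W.valuation (δ y) ≤ B := by
    intro y hy hyi
    have h1 := hspan y hy hyi
    have h2 : y ∈ W ∧ W.valuation (δ y) ≤ B := by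
      clear hy hyi
      induction h1 using Submodule.span_induction with
      | mem x hx =>
        exact ⟨mem_of_isIntegral W hpW (hS _ hx).2, hmax x (Finset.mem_insert_of_mem hx)⟩
      | zero => exact ⟨W.zero_mem, by simp⟩
      | add x y _ _ hx hy =>
        exact ⟨add_mem hx.1 hy.1, by rw [map_add]; exact Valuation.map_add_le _ hx.2 hy.2⟩
      | smul p x _ hx =>
        rw [Algebra.smul_def]
        refine ⟨mul_mem (hpW p) hx.1, ?_⟩
        rw [Derivation.leibniz, smul_eq_mul, smul_eq_mul]
        exact Valuation.map_add_le _ (hmul (hpW p) hx.2) (hmul hx.1 (hBp p))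
    exact h2.2
  have haevL : ∀ x ∈ L, ∀ Q : k[X][X], aeval x Q ∈ L := by
    intro x hx Q
    induction Q using Polynomial.induction_on' with
    | add p q hp hq => rw [map_add]; exact add_mem hp hq
    | monomial n a => rw [aeval_monomial]; exact mul_mem (hpL a) (pow_mem hx n)
  have hall : ∀ x ∈ L, x ∈ W → W.valuation (δ x) ≤ B := by
    intro x hxL hxW
    obtain ⟨Q, hQ1, hQ2, hQ3⟩ := exists_quot W hk hu hxW
    have h1 := hint _ (haevL x hxL Q) hQ1
    have h2 := hint _ (mul_mem hxL (haevL x hxL Q)) hQ2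
    have h3 : aeval x Q * δ x = δ (x * aeval x Q) - x * δ (aeval x Q) := by
      rw [Derivation.leibniz, smul_eq_mul, smul_eq_mul]; ring
    have h4 : W.valuation (aeval x Q * δ x) ≤ B := by
      rw [h3]
      exact Valuation.map_sub_le _ h2 (hmul hxW h1)
    rwa [map_mul, hQ3, one_mul] at h4
  refine lt_of_le_of_lt (hall h hhL hh) ?_
  obtain ⟨c, hc⟩ := exists_const W hk hu hh0'.2
  set h1 : F := h0 - algebraMap k F c with hh1
  have hδ1 : δ h1 = δ h0 := by simp [hh1]
  have hcL : ∀ c : k, algebraMap k F c ∈ L := by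
    intro c
    rw [IsScalarTower.algebraMap_apply k k[X] F]
    exact hpL _
  have hh1L : h1 ∈ L := sub_mem hh0'.1 (hcL c)
  by_cases h10 : h1 = 0
  · rw [hB, ← hδ1, h10, map_zero, map_zero]
    exact zero_lt_one
  obtain ⟨i, j, i', j', hjj, hval⟩ := exists_monomials W hk hu h10
  rw [← hudef] at hval
  have hm1 : u ^ i * h1 ^ j ≠ 0 := mul_ne_zero (pow_ne_zero _ hu0) (pow_ne_zero _ h10)
  have hm2 : u ^ i' * h1 ^ j' ≠ 0 := mul_ne_zero (pow_ne_zero _ hu0) (pow_ne_zero _ h10)
  set w : F := (u ^ i * h1 ^ j) / (u ^ i' * h1 ^ j') with hw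
  have hw0 : w ≠ 0 := div_ne_zero hm1 hm2
  have hwv : W.valuation w = 1 := by
    rw [hw, map_div₀, hval, div_self ((Valuation.ne_zero_iff _).2 hm2)]
  have hwL : w ∈ L := div_mem (mul_mem (pow_mem (hpL _) _) (pow_mem hh1L _))
    (mul_mem (pow_mem (hpL _) _) (pow_mem hh1L _))
  have hwW : w ∈ W := (W.valuation_le_one_iff _).1 hwv.le
  have hwB := hall w hwL hwW
  have hlog : ∀ a b : ℕ, δ (u ^ a * h1 ^ b) / (u ^ a * h1 ^ b) = a + b * (δ h1 / h1) := by
    intro a b
    rw [logD_mul δ (pow_ne_zero _ hu0) (pow_ne_zero _ h10), logD_pow δ hu0, logD_pow δ h10,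
      hδ, div_self hu0, mul_one]
  have e1 : u ^ i * h1 ^ j = w * (u ^ i' * h1 ^ j') := by rw [hw, div_mul_cancel₀ _ hm2]
  have e2 := hlog i j
  rw [e1, logD_mul δ hw0 hm2, hlog] at e2
  have e3 : algebraMap k F ((j : k) - j') * δ h1 =
      h1 * (δ w / w + algebraMap k F ((i' : k) - i)) := by
    simp only [map_sub, map_natCast]
    have : δ h1 = h1 * (δ h1 / h1) := by field_simp
    rw [this]
    linear_combination (-h1) * e2
  have hjk : (j : k) - j' ≠ 0 := sub_ne_zero.2 (by exact_mod_cast hjj)
  have e4 := congrArg W.valuation e3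
  rw [map_mul, val_const W hk hjk, one_mul, map_mul, hδ1, ← hB] at e4
  by_contra hcon
  push Not at hcon
  have e5 : W.valuation (δ w / w + algebraMap k F ((i' : k) - i)) ≤ B := by
    refine Valuation.map_add_le _ ?_ ((hle (hk _)).trans hcon)
    rw [map_div₀, hwv, div_one]
    exact hwB
  have hB0 : 0 < B := lt_of_lt_of_le zero_lt_one hcon
  have e6 : B < B := by
    calc B = _ := e4
      _ ≤ W.valuation h1 * B := by gcongr
      _ < 1 * B := by gcongr
      _ = B := one_mul _
  exact lt_irrefl _ e6

end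

section
variable {k F : Type*} [Field k] [Field F] [Algebra k F]

lemma isAlgebraic_poly (u : F) (hu : Transcendental k u)
    (halg : Algebra.IsAlgebraic (IntermediateField.adjoin k ({u} : Set F)) F) :
    letI : Algebra k[X] F := (aeval u : k[X] →ₐ[k] F).toRingHom.toAlgebra
    Algebra.IsAlgebraic k[X] F := by
  letI : Algebra k[X] F := (aeval u : k[X] →ₐ[k] F).toRingHom.toAlgebra
  let K0 := IntermediateField.adjoin k ({u} : Set F)
  let u0 : K0 := ⟨u, IntermediateField.subset_adjoin k {u} rfl⟩
  letI : Algebra k[X] K0 := (aeval u0 : k[X] →ₐ[k] K0).toRingHom.toAlgebra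
  have hev : ∀ p : k[X], ((aeval u0 p : K0) : F) = aeval u p := fun p =>
    (aeval_algebraMap_apply F u0 p).symm
  have : IsScalarTower k[X] K0 F := IsScalarTower.of_algebraMap_eq fun p => (hev p).symm
  have : Algebra.IsAlgebraic k[X] K0 := by
    refine ⟨fun z => ?_⟩
    obtain ⟨r, s, hrs⟩ := (IntermediateField.mem_adjoin_simple_iff k (z : F)).1 z.2
    by_cases hs : s = 0
    · have : z = 0 := by
        apply Subtype.ext
        rw [hrs, hs]; simp
      rw [this]; exact isAlgebraic_zero
    · refine ⟨C s * X - C r, ?_, ?_⟩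
      · intro h
        have := congrArg (fun P => coeff P 1) h
        simp [coeff_C] at this
        exact hs this
      · apply Subtype.ext
        have hs' : aeval u s ≠ 0 := fun h => hu ⟨s, hs, h⟩
        have e1 : ∀ p : k[X], algebraMap k[X] K0 p = aeval u0 p := fun _ => rfl
        rw [map_sub, map_mul, aeval_C, aeval_C, aeval_X, e1, e1]
        push_cast
        rw [hev, hev, hrs]
        field_simp
        simp
  exact Algebra.IsAlgebraic.trans k[X] K0 F

/-- The key lemma. -/
lemma key [CharZero k] [IsAlgClosed k] (u : F) (hu : Transcendental k u)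
    (halg : Algebra.IsAlgebraic (IntermediateField.adjoin k ({u} : Set F)) F)
    (δ : Derivation k F F) (hδ : δ u = u) (W : ValuationSubring F)
    (hk : ∀ c : k, algebraMap k F c ∈ W) (huW : W.valuation u < 1) {h : F} (hh : h ∈ W) :
    W.valuation (δ h) < 1 := by
  letI : Algebra k[X] F := (aeval u : k[X] →ₐ[k] F).toRingHom.toAlgebra
  have e1 : ∀ p : k[X], algebraMap k[X] F p = aeval u p := fun _ => rfl
  have : IsScalarTower k k[X] F := IsScalarTower.of_algebraMap_eq fun c => by
    rw [e1, algebraMap_eq, aeval_C]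
  have : FaithfulSMul k[X] F := by
    rw [faithfulSMul_iff_algebraMap_injective]
    exact (transcendental_iff_injective.1 hu)
  have := isAlgebraic_poly u hu halg
  refine key_aux W hk ?_ δ ?_ hh
  · rw [e1, aeval_X]; exact huW
  · rw [e1, aeval_X]; exact hδ

/-- The key lemma on the span. -/
lemma key_span [CharZero k] [IsAlgClosed k] (u : F) (hu : Transcendental k u)
    (halg : Algebra.IsAlgebraic (IntermediateField.adjoin k ({u} : Set F)) F)
    (D : Derivation k F F) (g : F) (hδ : g * D u = u) (W : ValuationSubring F)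
    (hk : ∀ c : k, algebraMap k F c ∈ W) (huW : u ∈ W.nonunits) {r : F}
    (hr : r ∈ Submodule.span W (D '' (W : Set F))) : g * r ∈ W.nonunits := by
  rw [W.mem_nonunits_iff] at huW ⊢
  induction hr using Submodule.span_induction with
  | mem x hx =>
    obtain ⟨h, hh, rfl⟩ := hx
    exact key u hu halg (g • D) hδ W hk huW hh
  | zero => simp
  | add x y _ _ hx hy => rw [mul_add]; exact Valuation.map_add_lt _ hx hy
  | smul a x _ hx =>
    have : g * (a • x) = (a : F) * (g * x) := by
      rw [Algebra.smul_def, ValuationSubring.algebraMap_apply]; ring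
    rw [this, map_mul]
    calc _ ≤ 1 * W.valuation (g * x) := by gcongr; exact W.valuation_le_one a
      _ < 1 := by rwa [one_mul]

end

end Pool.Agent.H280Z.Res
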