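import Pool.Agent.H280Z.Res.Key
import Pool.Agent.H505Z.NP.Defs

/-! The residue lemma `S_res`. -/

set_option autoImplicit false

namespace Pool.Agent.H280Z.Res

open Polynomial

section
variable {k F : Type*} [Field k] [Field F] [Algebra k F]

lemma exists_val_notMem {y : F} (hy : Transcendental k y) :
    ∃ W : ValuationSubring F, (∀ c : k, algebraMap k F c ∈ W) ∧ y ∉ W := by
  by_contra hcon
  push Not at hcon
  exact hy (isIntegral_of_val y hcon).isAlgebraic

lemma nonunits_comap (W : ValuationSubring F) (σ : F ≃+* F) (x : F) :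
    x ∈ (W.comap (σ : F →+* F)).nonunits ↔ σ x ∈ W.nonunits := by
  simp [ValuationSubring.mem_nonunits_iff_or]

open scoped RatFunc in
lemma exists_trace [IsAlgClosed F] (t : F) (ht : Transcendental k t)
    (halg : Algebra.IsAlgebraic (IntermediateField.adjoin k ({t} : Set F)) F) (β : F) :
    ∃ (R : Multiset F) (p q : k[X]), R ≠ 0 ∧ IsCoprime p q ∧ q ≠ 0 ∧
      aeval t q * R.sum = aeval t p ∧ ∀ ρ ∈ R, ∃ σ : F ≃+* F, σ t = t ∧
        (∀ c, σ (algebraMap k F c) = algebraMap k F c) ∧ σ β = ρ := by
  let _ : Algebra k[X] F := (aeval t : k[X] →ₐ[k] F).toRingHom.toAlgebra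
  have e1 : ∀ p : k[X], algebraMap k[X] F p = aeval t p := fun _ => rfl
  have : FaithfulSMul k[X] F := by
    rw [faithfulSMul_iff_algebraMap_injective]
    exact (transcendental_iff_injective.1 ht)
  have hA : Algebra.IsAlgebraic k[X] F := isAlgebraic_poly t ht halg
  let _ : Algebra (RatFunc k) F := RatFunc.liftAlgebra k F
  have : IsScalarTower k[X] (RatFunc k) F := RatFunc.isScalarTower_liftAlgebra k F
  have hB : Algebra.IsAlgebraic (RatFunc k) F :=
    (IsFractionRing.comap_isAlgebraic_iff (A := k[X])).1 hA
  have : IsAlgClosure (RatFunc k) F := ⟨‹_›, hB⟩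
  have : Normal (RatFunc k) F := IsAlgClosure.normal _ _
  have hβ : IsIntegral (RatFunc k) β := Algebra.IsIntegral.isIntegral β
  set f := (minpoly (RatFunc k) β).map (algebraMap (RatFunc k) F) with hf
  have hmon : f.Monic := (minpoly.monic hβ).map _
  have hsp := IsAlgClosed.splits f
  set z : RatFunc k := -(minpoly (RatFunc k) β).nextCoeff with hz
  have hsum : f.roots.sum = algebraMap (RatFunc k) F z := by
    have := hsp.nextCoeff_eq_neg_sum_roots_of_monic hmon
    rw [hf, nextCoeff_map_eq, ← hf] at this
    rw [hz, map_neg, this, neg_neg]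
  refine ⟨f.roots, z.num, z.denom, ?_, z.isCoprime_num_denom, z.denom_ne_zero, ?_, ?_⟩
  · intro h
    have h1 : β ∈ f.roots := by
      rw [mem_roots hmon.ne_zero, IsRoot.def, hf, eval_map_algebraMap]
      exact minpoly.aeval _ _
    rw [h] at h1
    exact Multiset.notMem_zero _ h1
  · rw [hsum, ← e1, ← e1, IsScalarTower.algebraMap_apply k[X] (RatFunc k) F,
      IsScalarTower.algebraMap_apply k[X] (RatFunc k) F z.num, ← map_mul]
    congr 1
    have h1 : algebraMap k[X] (RatFunc k) z.denom ≠ 0 :=
      RatFunc.algebraMap_ne_zero z.denom_ne_zero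
    have h2 := z.num_div_denom
    rw [div_eq_iff h1] at h2
    rw [h2, mul_comm]
  · intro ρ hρ
    rw [mem_roots hmon.ne_zero, IsRoot.def, hf, eval_map_algebraMap] at hρ
    obtain ⟨σ, hσ⟩ := minpoly.exists_algEquiv_of_root' hβ.isAlgebraic hρ
    have hfix : ∀ p : k[X], σ (aeval t p) = aeval t p := by
      intro p
      rw [← e1, IsScalarTower.algebraMap_apply k[X] (RatFunc k) F]
      exact σ.commutes _
    refine ⟨σ.toRingEquiv, ?_, fun c => ?_, hσ⟩
    · simpa using hfix X
    · simpa using hfix (C c)

lemma sum_mem_nonunits (W : ValuationSubring F) (R : Multiset F) (g b : F)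
    (h : ∀ ρ ∈ R, g * ρ + b ∈ W.nonunits) : g * R.sum + (R.card : F) * b ∈ W.nonunits := by
  induction R using Multiset.induction_on with
  | empty => simp
  | cons a R ih =>
    have h1 := h a (Multiset.mem_cons_self _ _)
    have h2 := ih fun ρ hρ => h ρ (Multiset.mem_cons_of_mem hρ)
    have : g * (a ::ₘ R).sum + ((a ::ₘ R).card : F) * b =
        (g * a + b) + (g * R.sum + (R.card : F) * b) := by
      rw [Multiset.sum_cons, Multiset.card_cons]; push_cast; ring
    rw [this]
    exact add_mem h1 h2

end

theorem thm_res : Pool.Agent.H505Z.NP.S_res := by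
  intro k F _ _ _ _ _ _ t ht halg D hD β a ha h0 h1
  obtain ⟨R, p, q, hR, hpq, hq0, hs, hσ⟩ := exists_trace t ht halg β
  have hq : q.degree = 0 := by
    by_contra hq
    obtain ⟨c, hc⟩ := IsAlgClosed.exists_root q hq
    set u : F := t - algebraMap k F c with hu
    have hadj : IntermediateField.adjoin k ({u} : Set F) =
        IntermediateField.adjoin k ({t} : Set F) := by
      apply le_antisymm
      · rw [IntermediateField.adjoin_simple_le_iff]
        exact sub_mem (IntermediateField.mem_adjoin_simple_self k t)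
          (IntermediateField.algebraMap_mem _ c)
      · rw [IntermediateField.adjoin_simple_le_iff]
        have : t = u + algebraMap k F c := by rw [hu]; ring
        rw [this]
        exact add_mem (IntermediateField.mem_adjoin_simple_self k u)
          (IntermediateField.algebraMap_mem _ c)
    have hut : Transcendental k u := by
      intro h
      apply ht
      have : t = u + algebraMap k F c := by rw [hu]; ring
      rw [this]
      exact h.add (isAlgebraic_algebraMap c)
    have halgu : Algebra.IsAlgebraic (IntermediateField.adjoin k ({u} : Set F)) F := by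
      rw [hadj]; exact halg
    have hDu : u * D u = u := by simp [hu, hD]
    have hinv : Transcendental k u⁻¹ := fun h => hut (IsAlgebraic.inv_iff.1 h)
    obtain ⟨W, hk, hW⟩ := exists_val_notMem hinv
    have huW : u ∈ W.nonunits := W.mem_nonunits_iff_or.2 (Or.inr hW)
    have htW : t ∈ W := by
      have : t = u + algebraMap k F c := by rw [hu]; ring
      rw [this]
      exact add_mem (W.nonunits_subset huW) (hk c)
    have hsum := sum_mem_nonunits W R u 0 (by
      intro ρ hρ
      obtain ⟨σ, hσt, hσc, hσβ⟩ := hσ ρ hρ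
      have hσu : σ u = u := by rw [hu, map_sub, hσt, hσc]
      have hk' : ∀ c : k, algebraMap k F c ∈ W.comap (σ : F →+* F) := by
        intro c
        rw [ValuationSubring.mem_comap, RingHom.coe_coe, hσc]
        exact hk c
      have ht' : t ∈ W.comap (σ : F →+* F) := by
        rw [ValuationSubring.mem_comap, RingHom.coe_coe, hσt]
        exact htW
      have := key_span u hut halgu D u hDu _ hk'
        ((nonunits_comap W σ u).2 (by rw [hσu]; exact huW)) (h0 _ hk' ht')
      rw [nonunits_comap, map_mul, hσu, hσβ] at this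
      rwa [add_zero])
    rw [mul_zero, add_zero, W.mem_nonunits_iff] at hsum
    obtain ⟨q1, hq1⟩ := dvd_iff_isRoot.2 hc
    have hp : aeval t p = aeval t q1 * (u * R.sum) := by
      rw [← hs, hq1, hu]; simp; ring
    have hpc : p.eval c ≠ 0 := by
      obtain ⟨x, y, hxy⟩ := hpq
      intro h
      have := congrArg (eval c) hxy
      rw [eval_add, eval_mul, eval_mul, h, hc.eq_zero] at this
      simp at this
    have hv1 : W.valuation (aeval t p) = 1 := by
      have h2 : aeval t p = aeval u (p.comp (X + C c)) := by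
        rw [aeval_comp]; simp [hu]
      rw [h2]
      refine val_aeval_eq_one W hk (W.mem_nonunits_iff.1 huW) _ ?_
      rw [coeff_zero_eq_eval_zero, eval_comp]
      simpa using hpc
    have hv2 : W.valuation (aeval t p) < 1 := by
      rw [hp, map_mul]
      calc _ ≤ 1 * W.valuation (u * R.sum) := by
            gcongr; exact (W.valuation_le_one_iff _).2 (aeval_mem W hk htW _)
        _ < 1 := by rwa [one_mul]
    rw [hv1] at hv2
    exact lt_irrefl _ hv2
  have ht0 : t ≠ 0 := by
    rintro rfl
    exact ht isAlgebraic_zero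
  have hq' := eq_C_of_degree_eq_zero hq
  have hq00 : q.coeff 0 ≠ 0 := by
    intro h; apply hq0; rw [hq', h, C_0]
  have hs' : R.sum = aeval t (C (q.coeff 0)⁻¹ * p) := by
    rw [map_mul, ← hs]
    conv_rhs => rw [hq']
    rw [aeval_C, aeval_C, coeff_C_zero, ← mul_assoc, ← map_mul, inv_mul_cancel₀ hq00, map_one,
      one_mul]
  have hadj : IntermediateField.adjoin k ({t⁻¹} : Set F) =
      IntermediateField.adjoin k ({t} : Set F) := by
    apply le_antisymm
    · rw [IntermediateField.adjoin_simple_le_iff]
      exact inv_mem (IntermediateField.mem_adjoin_simple_self k t)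
    · rw [IntermediateField.adjoin_simple_le_iff]
      have := inv_mem (IntermediateField.mem_adjoin_simple_self k t⁻¹)
      rwa [inv_inv] at this
  have hut : Transcendental k t⁻¹ := fun h => ht (IsAlgebraic.inv_iff.1 h)
  have halgu : Algebra.IsAlgebraic (IntermediateField.adjoin k ({t⁻¹} : Set F)) F := by
    rw [hadj]; exact halg
  have hDu : (-t) * D t⁻¹ = t⁻¹ := by
    rw [Derivation.leibniz_inv, hD, smul_eq_mul]
    field_simp
  obtain ⟨W, hk, hW⟩ := exists_val_notMem ht
  have huW : t⁻¹ ∈ W.nonunits := W.inv_mem_nonunits_iff.2 (Or.inr hW)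
  have hsum := sum_mem_nonunits W R t (algebraMap k F a) (by
    intro ρ hρ
    obtain ⟨σ, hσt, hσc, hσβ⟩ := hσ ρ hρ
    have hσu : σ t⁻¹ = t⁻¹ := by rw [map_inv₀, hσt]
    have hk' : ∀ c : k, algebraMap k F c ∈ W.comap (σ : F →+* F) := by
      intro c
      rw [ValuationSubring.mem_comap, RingHom.coe_coe, hσc]
      exact hk c
    have ht' : t ∉ W.comap (σ : F →+* F) := by
      rw [ValuationSubring.mem_comap, RingHom.coe_coe, hσt]
      exact hW
    have := key_span t⁻¹ hut halgu D (-t) hDu _ hk'
      ((nonunits_comap W σ _).2 (by rw [hσu]; exact huW)) (h1 _ hk' ht')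
    have e : -t * (β + algebraMap k F a / t) = -(t * β + algebraMap k F a) := by
      field_simp
    rw [e, nonunits_comap, map_neg, map_add, map_mul, hσt, hσβ, hσc] at this
    exact neg_mem_iff.1 this)
  set Q : k[X] := X * (C (q.coeff 0)⁻¹ * p) + C ((R.card : k) * a) with hQ
  have hQ0 : Q ≠ 0 := by
    intro h
    have h2 : Q.coeff 0 = (R.card : k) * a := by simp [hQ]
    rw [h, coeff_zero] at h2
    have h3 : (R.card : k) ≠ 0 := by
      exact_mod_cast (Multiset.card_eq_zero.not.2 hR)
    exact mul_ne_zero h3 ha h2.symm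
  have hQt : aeval t Q = t * R.sum + (R.card : F) * algebraMap k F a := by
    rw [hQ, map_add, map_mul, aeval_X, ← hs', aeval_C, map_mul, map_natCast]
  rw [← hQt, W.mem_nonunits_iff] at hsum
  let _ : Invertible t := invertibleOfNonzero ht0
  have hrev := Polynomial.eval₂_reverse_mul_pow (algebraMap k F) t Q
  rw [invOf_eq_inv, ← aeval_def, ← aeval_def] at hrev
  have hv := val_aeval_eq_one W hk (W.mem_nonunits_iff.1 huW) Q.reverse
    (by rw [coeff_zero_reverse]; exact leadingCoeff_ne_zero.2 hQ0)
  rw [← hrev, map_mul, hv, one_mul, map_pow] at hsum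
  have ht1 : 1 ≤ W.valuation t := by
    by_contra h
    exact hW ((W.valuation_le_one_iff _).1 (not_le.1 h).le)
  exact absurd hsum (not_lt.2 (one_le_pow₀ ht1))

end Pool.Agent.H280Z.Res
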