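import Mathlib

/-! Valuation rings of an algebraic extension of a rational function field in one variable. -/

set_option autoImplicit false

namespace Pool.Agent.H280Z.Res

open Polynomial

/-- Integrality tested on valuation rings. -/
lemma isIntegral_of_val {A F : Type*} [CommRing A] [Field F] [Algebra A F] (y : F)
    (h : ∀ V : ValuationSubring F, (∀ a, algebraMap A F a ∈ V) → y ∈ V) : IsIntegral A y := by
  have h1 : y ∈ (⨅ V : {V : ValuationSubring F //
      (((algebraMap A F).range : Subring F) : Set F) ⊆ V.toSubring}, V.1.toSubring) := by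
    rw [Subring.mem_iInf]
    rintro ⟨V, hV⟩
    exact h V fun a => hV ⟨a, rfl⟩
  rw [iInf_valuationSubring_superset, Subring.closure_eq] at h1
  obtain ⟨p, hp, hp0⟩ : IsIntegral (algebraMap A F).range y := h1
  obtain ⟨q, hq, -, hqm⟩ := Polynomial.lifts_and_degree_eq_and_monic
    ((Polynomial.mem_lifts p).2 (Polynomial.map_surjective _
      (algebraMap A F).rangeRestrict_surjective p)) hp
  refine ⟨q, hqm, ?_⟩
  rw [← hq, Polynomial.eval₂_map] at hp0
  exact hp0

/-- Integral elements lie in every valuation ring. -/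
lemma mem_of_isIntegral {A F : Type*} [CommRing A] [Field F] [Algebra A F]
    (V : ValuationSubring F) (hV : ∀ a, algebraMap A F a ∈ V) {y : F} (hy : IsIntegral A y) :
    y ∈ V := by
  obtain ⟨p, hp, hp0⟩ := hy
  let r : A →+* V := (algebraMap A F).codRestrict V hV
  have h1 : IsIntegral V y := by
    refine ⟨p.map r, hp.map r, ?_⟩
    rw [Polynomial.eval₂_map]
    exact hp0
  obtain ⟨z, hz⟩ := (IsIntegrallyClosedIn.isIntegral_iff (R := V) (A := F)).1 h1
  rw [← hz]
  exact z.2

lemma aeval_mem {A F : Type*} [CommRing A] [Field F] [Algebra A F]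
    (V : ValuationSubring F) (hV : ∀ a, algebraMap A F a ∈ V) {x : F} (hx : x ∈ V) (P : A[X]) :
    aeval x P ∈ V := by
  induction P using Polynomial.induction_on' with
  | add p q hp hq => rw [map_add]; exact add_mem hp hq
  | monomial n a => rw [aeval_monomial]; exact mul_mem (hV a) (pow_mem hx n)

section
variable {k F : Type*} [Field k] [Field F] [Algebra k F]

lemma val_const (W : ValuationSubring F) (hk : ∀ c : k, algebraMap k F c ∈ W) {c : k}
    (hc : c ≠ 0) : W.valuation (algebraMap k F c) = 1 := by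
  have h1 := (W.valuation_le_one_iff _).2 (hk c)
  have h2 := (W.valuation_le_one_iff _).2 (hk c⁻¹)
  have h3 : W.valuation (algebraMap k F c) * W.valuation (algebraMap k F c⁻¹) = 1 := by
    rw [← map_mul, ← map_mul, mul_inv_cancel₀ hc, map_one, map_one]
  refine le_antisymm h1 ?_
  calc 1 = _ := h3.symm
    _ ≤ W.valuation (algebraMap k F c) * 1 := by gcongr
    _ = _ := mul_one _

lemma val_aeval_sub (W : ValuationSubring F) (hk : ∀ c : k, algebraMap k F c ∈ W) {u : F}
    (hu : W.valuation u < 1) (p : k[X]) :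
    W.valuation (aeval u p - algebraMap k F (p.coeff 0)) < 1 := by
  have huW : u ∈ W := (W.valuation_le_one_iff _).1 hu.le
  have h1 : aeval u p - algebraMap k F (p.coeff 0) = u * aeval u p.divX := by
    have h := congrArg (aeval u) (X_mul_divX_add p)
    rw [map_add, map_mul, aeval_X, aeval_C] at h
    rw [← h]; ring
  rw [h1, map_mul]
  calc _ ≤ W.valuation u * 1 := by
        gcongr; exact (W.valuation_le_one_iff _).2 (aeval_mem W hk huW _)
    _ < 1 := by simpa using hu

lemma val_aeval_eq_one (W : ValuationSubring F) (hk : ∀ c : k, algebraMap k F c ∈ W) {u : F}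
    (hu : W.valuation u < 1) (p : k[X]) (hp : p.coeff 0 ≠ 0) :
    W.valuation (aeval u p) = 1 := by
  have h1 := val_aeval_sub W hk hu p
  have h2 := val_const W hk hp
  have h3 : aeval u p = (aeval u p - algebraMap k F (p.coeff 0)) + algebraMap k F (p.coeff 0) := by
    ring
  rw [h3, Valuation.map_add_eq_of_lt_right _ (by rw [h2]; exact h1), h2]

lemma val_aeval_eq_pow (W : ValuationSubring F) (hk : ∀ c : k, algebraMap k F c ∈ W) {u : F}
    (hu : W.valuation u < 1) (p : k[X]) (hp : p ≠ 0) :
    ∃ e : ℕ, W.valuation (aeval u p) = W.valuation u ^ e := by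
  obtain ⟨q, hq, hq'⟩ := Polynomial.exists_eq_pow_rootMultiplicity_mul_and_not_dvd p hp 0
  refine ⟨p.rootMultiplicity 0, ?_⟩
  have h0 : q.coeff 0 ≠ 0 := by
    intro h
    apply hq'
    rw [C_0, sub_zero]
    exact X_dvd_iff.2 h
  conv_lhs => rw [hq]
  rw [map_mul, map_mul, val_aeval_eq_one W hk hu q h0]
  simp

end

section
variable {k F : Type*} [Field k] [Field F] [Algebra k F] [Algebra k[X] F]
  [IsScalarTower k k[X] F]

lemma algebraMap_eq_aeval (p : k[X]) :
    algebraMap k[X] F p = aeval (algebraMap k[X] F X) p := by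
  rw [aeval_algebraMap_apply]
  simp

omit [Algebra k F] [IsScalarTower k k[X] F] in
/-- A primitive relation. -/
lemma exists_rel [FaithfulSMul k[X] F] [Algebra.IsAlgebraic k[X] F] (x : F) :
    ∃ P : k[X][X], aeval x P = 0 ∧ ∃ j, (P.coeff j).coeff 0 ≠ 0 := by
  classical
  obtain ⟨P, hP, hPx⟩ := Algebra.IsAlgebraic.isAlgebraic (R := k[X]) x
  refine ⟨P.primPart, Polynomial.aeval_primPart_eq_zero hP hPx, ?_⟩
  by_contra hcon
  push Not at hcon
  have h1 : C (X : k[X]) ∣ P.primPart := by
    rw [C_dvd_iff_dvd_coeff]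
    intro i
    exact X_dvd_iff.2 (hcon i)
  exact Polynomial.not_isUnit_X (P.isPrimitive_primPart _ h1)

variable (W : ValuationSubring F) (hk : ∀ c : k, algebraMap k F c ∈ W)
  (hu : W.valuation (algebraMap k[X] F X) < 1)
include hk hu

lemma poly_mem (p : k[X]) : algebraMap k[X] F p ∈ W := by
  rw [algebraMap_eq_aeval]
  exact aeval_mem W hk ((W.valuation_le_one_iff _).1 hu.le) p

/-- The residue field is the constant field. -/
lemma exists_const [IsAlgClosed k] [FaithfulSMul k[X] F] [Algebra.IsAlgebraic k[X] F] {x : F}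
    (hx : x ∈ W) : ∃ c : k, W.valuation (x - algebraMap k F c) < 1 := by
  classical
  obtain ⟨P, hPx, j, hj⟩ := exists_rel (k := k) x
  set P0 : k[X] := P.map (constantCoeff) with hP0
  have hc : ∀ i, P0.coeff i = (P.coeff i).coeff 0 := by
    intro i; simp [hP0]
  have hP00 : P0 ≠ 0 := by
    intro h
    apply hj
    rw [← hc, h, coeff_zero]
  have h1 : W.valuation (aeval x P0) < 1 := by
    have e1 : aeval x P0 = -(aeval x P - aeval x P0) := by rw [hPx]; ring
    rw [e1, Valuation.map_neg, aeval_eq_sum_range' (n := P.natDegree + 1) (Nat.lt_succ_self _),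
      aeval_eq_sum_range' (p := P0) (n := P.natDegree + 1)
        (Nat.lt_succ_of_le natDegree_map_le), ← Finset.sum_sub_distrib]
    refine Valuation.map_sum_lt _ one_ne_zero fun i _ => ?_
    rw [Algebra.smul_def, Algebra.smul_def, ← sub_mul, map_mul, hc, algebraMap_eq_aeval]
    calc _ ≤ W.valuation (aeval (algebraMap k[X] F X) (P.coeff i)
            - algebraMap k F ((P.coeff i).coeff 0)) * 1 := by
          gcongr; exact (W.valuation_le_one_iff _).2 (pow_mem hx i)
      _ < 1 := by rw [mul_one]; exact val_aeval_sub W hk hu _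
  by_contra hcon
  push Not at hcon
  have h2 : ∀ c : k, W.valuation (x - algebraMap k F c) = 1 := fun c =>
    le_antisymm ((W.valuation_le_one_iff _).2 (sub_mem hx (hk c))) (hcon c)
  have h3 := (IsAlgClosed.splits P0).eq_prod_roots
  have h4 : W.valuation (aeval x P0) = 1 := by
    rw [h3, map_mul, map_mul, aeval_C, val_const W hk (leadingCoeff_ne_zero.2 hP00), one_mul,
      map_multiset_prod, map_multiset_prod]
    refine Multiset.prod_eq_one fun z hz => ?_
    simp only [Multiset.map_map, Multiset.mem_map, Function.comp] at hz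
    obtain ⟨c, -, rfl⟩ := hz
    simpa using h2 c
  rw [h4] at h1
  exact lt_irrefl _ h1

/-- The value group has rational rank one. -/
lemma exists_monomials [FaithfulSMul k[X] F] [Algebra.IsAlgebraic k[X] F] {x : F} (hx : x ≠ 0) :
    ∃ i j i' j' : ℕ, j ≠ j' ∧ W.valuation (algebraMap k[X] F X ^ i * x ^ j) =
      W.valuation (algebraMap k[X] F X ^ i' * x ^ j') := by
  classical
  obtain ⟨P, hP, hPx⟩ := Algebra.IsAlgebraic.isAlgebraic (R := k[X]) x
  have hne : P.support.Nonempty := Polynomial.support_nonempty.2 hP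
  obtain ⟨j, hj, hmax⟩ := P.support.exists_max_image
    (fun i => W.valuation (algebraMap k[X] F (P.coeff i) * x ^ i)) hne
  have hs : ∑ i ∈ P.support, algebraMap k[X] F (P.coeff i) * x ^ i = 0 := by
    rw [aeval_def, eval₂_eq_sum, Polynomial.sum_def] at hPx
    exact hPx
  have hex : ∃ i ∈ P.support \ {j}, W.valuation (algebraMap k[X] F (P.coeff i) * x ^ i) =
      W.valuation (algebraMap k[X] F (P.coeff j) * x ^ j) := by
    by_contra hcon
    push Not at hcon
    have h1 := Valuation.map_sum_eq_of_lt W.valuation hj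
      (f := fun i => algebraMap k[X] F (P.coeff i) * x ^ i)
      (fun i hi => lt_of_le_of_ne (hmax i (Finset.mem_sdiff.1 hi).1) (hcon i hi))
    rw [hs, map_zero] at h1
    have h2 : algebraMap k[X] F (P.coeff j) * x ^ j ≠ 0 :=
      mul_ne_zero ((map_ne_zero_iff _ (FaithfulSMul.algebraMap_injective k[X] F)).2
        (mem_support_iff.1 hj)) (pow_ne_zero _ hx)
    exact h2 ((Valuation.zero_iff _).1 h1.symm)
  obtain ⟨i, hi, he⟩ := hex
  rw [Finset.mem_sdiff, Finset.mem_singleton] at hi
  obtain ⟨a, ha⟩ := val_aeval_eq_pow W hk hu _ (mem_support_iff.1 hi.1)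
  obtain ⟨b, hb⟩ := val_aeval_eq_pow W hk hu _ (mem_support_iff.1 hj)
  rw [← algebraMap_eq_aeval] at ha hb
  refine ⟨a, i, b, j, hi.2, ?_⟩
  rw [map_mul, map_mul, ha, hb] at he
  rw [map_mul, map_mul, map_pow, map_pow _ _ b]
  exact he

/-- Every element of the valuation ring is a quotient of integral elements. -/
lemma exists_quot [FaithfulSMul k[X] F] [Algebra.IsAlgebraic k[X] F] {x : F} (hx : x ∈ W) :
    ∃ Q : k[X][X], IsIntegral k[X] (aeval x Q) ∧ IsIntegral k[X] (x * aeval x Q) ∧
      W.valuation (aeval x Q) = 1 := by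
  obtain ⟨P, hPx, j, hj⟩ := exists_rel (k := k) x
  let s : ℕ → F := fun n => aeval x (divX^[n] P)
  have hco : ∀ n, (divX^[n] P).coeff 0 = P.coeff n := by
    have : ∀ n m (Q : k[X][X]), (divX^[n] Q).coeff m = Q.coeff (m + n) := by
      intro n
      induction n with
      | zero => intro m Q; simp
      | succ n ih =>
        intro m Q
        rw [Function.iterate_succ_apply', coeff_divX, ih]
        congr 1; omega
    intro n
    rw [this, zero_add]
  have hs : ∀ n, s n = x * s (n + 1) + algebraMap k[X] F (P.coeff n) := by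
    intro n
    simp only [s]
    conv_lhs => rw [← X_mul_divX_add (divX^[n] P)]
    rw [Function.iterate_succ_apply', hco]
    simp
  have hs0 : s 0 = 0 := hPx
  have hint : ∀ n, IsIntegral k[X] (s n) := by
    intro n
    refine isIntegral_of_val _ fun V hV => ?_
    by_cases hxV : x ∈ V
    · exact aeval_mem V hV hxV _
    · have hxi : x⁻¹ ∈ V := (V.mem_or_inv_mem x).resolve_left hxV
      have hx0 : x ≠ 0 := by rintro rfl; exact hxV V.zero_mem
      induction n with
      | zero => rw [hs0]; exact V.zero_mem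
      | succ n ih =>
        have : s (n + 1) = x⁻¹ * (s n - algebraMap k[X] F (P.coeff n)) := by
          rw [hs n]; field_simp; ring
        rw [this]
        exact mul_mem hxi (sub_mem ih (hV _))
  have hsW : ∀ n, W.valuation (s n) ≤ 1 := fun n =>
    (W.valuation_le_one_iff _).2 (aeval_mem W (poly_mem W hk hu) hx _)
  have hex : ∃ n, W.valuation (s n) = 1 := by
    by_contra hcon
    push Not at hcon
    have hlt : ∀ n, W.valuation (s n) < 1 := fun n => lt_of_le_of_ne (hsW n) (hcon n)
    have h1 : algebraMap k[X] F (P.coeff j) = s j - x * s (j + 1) := by rw [hs j]; ring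
    have h2 : W.valuation (algebraMap k[X] F (P.coeff j)) < 1 := by
      rw [h1]
      refine Valuation.map_sub_lt _ (hlt j) ?_
      rw [map_mul]
      calc _ ≤ 1 * W.valuation (s (j + 1)) := by
            gcongr; exact (W.valuation_le_one_iff _).2 hx
        _ < 1 := by rw [one_mul]; exact hlt _
    rw [algebraMap_eq_aeval, val_aeval_eq_one W hk hu _ hj] at h2
    exact lt_irrefl _ h2
  obtain ⟨n, hn⟩ := hex
  cases n with
  | zero => rw [hs0, map_zero] at hn; exact absurd hn zero_ne_one
  | succ n =>
    refine ⟨divX^[n + 1] P, hint (n + 1), ?_, hn⟩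
    have : x * s (n + 1) = s n - algebraMap k[X] F (P.coeff n) := by rw [hs n]; ring
    change IsIntegral k[X] (x * s (n + 1))
    rw [this]
    exact (hint n).sub isIntegral_algebraMap

end

end Pool.Agent.H280Z.Res
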